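import Pool.Agent.H.MP_4b0054_an.A
set_option autoImplicit false

namespace Pool.Agent.H.MP_86e52e_an
open Set Metric Filter Topology Finsupp
open Pool.Agent.H.MP_1a7c10_an
open Pool.Agent.H.MP_a71740_an hiding key_lemma exists_q far core

universe u

variable {p p' : ℝ} {M : Type u} [MetricSpace M] {o : M} {nr : (M →₀ ℝ) → ℝ}

lemma key_lemma (o : M) (Hs : SN ℝ p nr) (hp1 : p ≤ 1) (hq : 0 < p') (hq1 : p' ≤ 1)
    (Hi : ∀ x y, nr (single x 1 - single y 1) ≤ dist x y ^ p') (G : Finset M) {ρ : ℝ} (hρ : 0 < ρ) :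
    ∃ r > 0, r ≤ ρ ∧ ∀ c : M × M →₀ ℝ, (∀ z, z ∉ G → bd c z = 0) →
      nr (bd c) ≤ 2 ^ p' * cost p (DD p' r) c := by
  classical
  have hp := Hs.hp
  obtain ⟨σ0, σpos, σρ, hσ⟩ := exists_sep G hρ
  set m := 3 * G.card with hm
  set θ : ℝ := 1 / (8 * 4 ^ m) with hθ
  have b1 : (1:ℝ) ≤ 4 ^ m := one_le_pow₀ (by norm_num)
  have θ0 : 0 < θ := by positivity
  have θ1 : θ ≤ 1 := by rw [hθ, div_le_one (by positivity)]; linarith
  let σ : ℕ → ℝ := fun i => σ0 * θ ^ i
  have σp : ∀ i, 0 < σ i := fun i => by positivity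
  have σa : Antitone σ := fun i j hij =>
    mul_le_mul_of_nonneg_left (pow_le_pow_of_le_one θ0.le θ1 hij) σpos.le
  have σ00 : σ 0 = σ0 := by simp [σ]
  refine ⟨σ (m + 1), σp _, (σa (Nat.zero_le _)).trans (σ00 ▸ σρ), fun c0 hG0 => ?_⟩
  obtain ⟨c, e1, e2, e3⟩ := reduce hp hp1 (DD_nonneg (p := p') (σp (m + 1))) (DD_symm _)
    (DD_tri hq hq1 (σp _)) G _ c0 rfl hG0
  refine le_trans ?_ (mul_le_mul_of_nonneg_left e2 (by positivity))
  rw [← e1] at hG0 ⊢
  obtain ⟨i, hi, hw⟩ : ∃ i ≤ m, ∀ e ∈ c.support, dist e.1 e.2 ≤ σ (i + 1) ∨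
      σ i < dist e.1 e.2 := by
    by_contra hcon
    push Not at hcon
    haveI : Nonempty (M × M) := ⟨(o, o)⟩
    choose! f hf1 hf2 hf3 using hcon
    have := Finset.card_le_card_of_injOn (s := Finset.range (m + 1)) (t := c.support) f
      (fun i hi => hf1 i (Nat.lt_succ_iff.mp (Finset.mem_range.mp hi))) (by
        intro i hi j hj hij
        have hi' := Nat.lt_succ_iff.mp (Finset.mem_range.mp hi)
        have hj' := Nat.lt_succ_iff.mp (Finset.mem_range.mp hj)
        have a1 := hf2 i hi'; have a2 := hf3 i hi'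
        have a3 := hf2 j hj'; have a4 := hf3 j hj'
        rw [hij] at a1 a2
        rcases lt_trichotomy i j with h | h | h
        · have : σ j ≤ σ (i + 1) := σa (Nat.succ_le_of_lt h)
          linarith
        · exact h
        · have : σ i ≤ σ (j + 1) := σa (Nat.succ_le_of_lt h)
          linarith)
    rw [Finset.card_range] at this
    omega
  obtain ⟨f, f1, f2⟩ := contract (σp (i + 1)).le
    (c.support.filter (fun e => dist e.1 e.2 ≤ σ (i + 1))) (fun e he => (Finset.mem_filter.mp he).2)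
  have f3 : ∀ z, dist z (f z) ≤ σ i / 8 := by
    intro z
    refine (f2 z).trans ?_
    have a1 : (4:ℝ) ^ (c.support.filter (fun e => dist e.1 e.2 ≤ σ (i + 1))).card ≤ 4 ^ m :=
      pow_le_pow_right₀ (by norm_num) ((Finset.card_filter_le _ _).trans e3)
    refine (mul_le_mul_of_nonneg_right a1 (σp _).le).trans (le_of_eq ?_)
    simp only [σ, pow_succ, hθ]
    field_simp
  let g : M → M := fun w => if h : ∃ a ∈ G, f a = w then h.choose else w
  have g1 : ∀ z, dist z (g (f z)) ≤ σ i / 4 := by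
    intro z
    simp only [g]
    split_ifs with h
    · have a1 := h.choose_spec.2
      have a2 := f3 h.choose
      have a3 := dist_triangle z (f z) h.choose
      rw [a1, dist_comm] at a2
      have := f3 z
      linarith
    · have := f3 z; have := σp i; linarith
  have g2 : ∀ z ∈ G, g (f z) = z := by
    intro z hz
    have h : ∃ a ∈ G, f a = f z := ⟨z, hz, rfl⟩
    have a1 := g1 z
    have e : g (f z) = h.choose := by simp only [g]; rw [dif_pos h]
    rw [e] at a1 ⊢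
    by_contra hne
    have a2 := hσ z hz _ h.choose_spec.1 (Ne.symm hne)
    have a3 := σa (Nat.zero_le i)
    have := σp i
    linarith
  let Φ : (M →₀ ℝ) →ₗ[ℝ] (M →₀ ℝ) := linearCombination ℝ (fun z => single (g (f z)) 1)
  have Φ1 : Φ (bd c) = bd c := by
    conv_rhs => rw [← sum_single (bd c)]
    rw [linearCombination_apply]
    refine Finsupp.sum_congr (fun z hz => ?_)
    have : z ∈ G := by
      by_contra h
      exact mem_support_iff.mp hz (hG0 z h)
    rw [g2 z this, smul_single, smul_eq_mul, mul_one]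
  rw [← Φ1, bd_eq, map_sum, cost, Finset.mul_sum]
  refine (Hs.sum _ _).trans (Finset.sum_le_sum (fun e he => ?_))
  rw [map_smul, Hs.smul, Real.norm_eq_abs, ev, map_sub, mul_left_comm]
  refine mul_le_mul_of_nonneg_left ?_ (by positivity)
  simp only [Φ, linearCombination_single, one_smul]
  rcases hw e he with h | h
  · rw [f1 e (Finset.mem_filter.mpr ⟨he, h⟩), sub_self, Hs.zero]
    exact mul_nonneg (by positivity) (DD_nonneg (σp _) _ _)
  · rw [DD_big hq1 (σp _) ((σa (by omega)).trans h.le), ← Real.mul_rpow (by norm_num) dist_nonneg]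
    refine (Hi _ _).trans (Real.rpow_le_rpow dist_nonneg ?_ hq.le)
    have t := dist_triangle4 (g (f e.1)) e.1 e.2 (g (f e.2))
    have a1 := g1 e.1
    have a2 := g1 e.2
    rw [dist_comm] at a1
    have := σp i
    linarith

/-- the fine-scale quotient seminorm -/
lemma exists_q (Hs : SN ℝ p nr) (hp1 : p ≤ 1) (hq : 0 < p') (hq1 : p' ≤ 1)
    (Hi : ∀ x y, nr (single x 1 - single y 1) ≤ dist x y ^ p') (N : Finset M) (hN : o ∈ N) (v : M →₀ ℝ)
    {ρ s : ℝ} (hρ : 0 < ρ) (hv : ∀ w : M →₀ ℝ, (∀ z, z ∉ N → w z = 0) → s ≤ nr (v - w)) :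
    ∃ r > 0, r ≤ ρ ∧ ∃ q : (M →₀ ℝ) → ℝ, SN ℝ p q ∧ (∀ e ∈ N, q (single e 1) = 0) ∧
      (∀ x y, q (single x 1 - single y 1) ≤ DD p' r x y) ∧ s / 2 ^ p' ≤ q v := by
  classical
  have hp := Hs.hp
  obtain ⟨r, r0, rρ, hr⟩ := key_lemma o Hs hp1 hq hq1 Hi (v.support ∪ N) hρ
  obtain ⟨q, q0, q1, q2⟩ := SN_inf (cost_sn hp hp1 (DD_nonneg (p := p') (M := M) r0))
    (fun k (c : M →₀ ℝ) => ∀ z, z ∉ N → bd k z = c z) (fun c => by
      induction c using Finsupp.induction_linear with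
      | zero => exact ⟨0, by simp⟩
      | add a b ha hb =>
        obtain ⟨k, hk⟩ := ha
        obtain ⟨k', hk'⟩ := hb
        exact ⟨k + k', fun z hz => by simp [hk z hz, hk' z hz]⟩
      | single x t =>
        refine ⟨single (x, o) t, fun z hz => ?_⟩
        have : o ≠ z := fun h => hz (h ▸ hN)
        rw [bd_single, ev]
        simp [single_eq_of_ne' this, single_apply])
    (fun k c k' c' a b z hz => by simp [a z hz, b z hz])
    (fun t k c a z hz => by simp [a z hz])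
  refine ⟨r, r0, rρ, q, q0, fun e he => ?_, fun x y => ?_, q2 _ _ (fun k hk => ?_)⟩
  · refine le_antisymm ?_ (q0.nonneg _)
    have := q1 0 (single e 1) (fun z hz => by
      have : e ≠ z := fun h => hz (h ▸ he)
      simp [single_eq_of_ne' this])
    simpa [cost] using this
  · have := q1 (single (x, y) 1) (single x 1 - single y 1) (fun z _ => by
      rw [bd_single, one_smul, ev])
    rw [cost_single hp] at this
    simpa using this
  · rw [div_le_iff₀' (by positivity)]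
    refine le_trans ?_ (hr k (fun z hz => ?_))
    · have := hv (v - bd k) (fun z hz => by rw [Finsupp.sub_apply, hk z hz, sub_self])
      rwa [sub_sub_cancel] at this
    · rw [Finset.mem_union, not_or] at hz
      rw [hk z hz.2, notMem_support_iff.mp hz.1]


lemma far0 {V : Type*} [NormedAddCommGroup V] [NormedSpace ℝ V] [FiniteDimensional ℝ V]
    {q : V → ℝ} (hq : SN ℝ p q) (hc : Continuous q) {B η : ℝ} (hη : 0 < η) (v : ℕ → V)
    (hB : ∀ k, q (v k) ≤ B) : ∃ k l, k ≠ l ∧ q (v k - v l) < η := by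
  have hp := hq.hp
  let Z : Submodule ℝ V :=
    { carrier := {z | q z = 0}
      add_mem' := fun {a b} ha hb => le_antisymm (by
        have := hq.add a b
        rw [show q a = 0 from ha, show q b = 0 from hb] at this
        linarith) (hq.nonneg _)
      zero_mem' := hq.zero
      smul_mem' := fun t a ha => by
        change q (t • a) = 0
        rw [hq.smul, show q a = 0 from ha, mul_zero] }
  obtain ⟨U, hU⟩ := Z.exists_isCompl
  have dec : ∀ k, ∃ u ∈ U, v k - u ∈ Z := by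
    intro k
    have : v k ∈ Z ⊔ U := by rw [hU.sup_eq_top]; trivial
    obtain ⟨z, hz, u, hu, e⟩ := Submodule.mem_sup.mp this
    exact ⟨u, hu, by rw [← e, add_sub_cancel_right]; exact hz⟩
  choose u u1 u2 using dec
  have u3 : ∀ k, q (v k - u k) = 0 := u2
  have hm : ∃ m > 0, ∀ w ∈ U, m * ‖w‖ ^ p ≤ q w := by
    have hcomp : IsCompact (sphere (0:V) 1 ∩ (U : Set V)) :=
      (isCompact_sphere _ _).inter_right U.closed_of_finiteDimensional
    have key : ∀ m, (∀ w ∈ sphere (0:V) 1 ∩ (U : Set V), m ≤ q w) → ∀ w ∈ U, m * ‖w‖ ^ p ≤ q w := by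
      intro m hm w hw
      rcases eq_or_ne w 0 with rfl | h0
      · simp [Real.zero_rpow hp.ne', hq.zero]
      · have n0 : 0 < ‖w‖ := norm_pos_iff.mpr h0
        have a1 := hm (‖w‖⁻¹ • w) ⟨by simp [norm_smul, n0.ne'], U.smul_mem _ hw⟩
        have a2 := hq.smul ‖w‖ (‖w‖⁻¹ • w)
        rw [smul_smul, mul_inv_cancel₀ n0.ne', one_smul, norm_norm] at a2
        rw [a2, mul_comm]
        exact mul_le_mul_of_nonneg_left a1 (by positivity)
    rcases (sphere (0:V) 1 ∩ (U : Set V)).eq_empty_or_nonempty with he | hne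
    · exact ⟨1, one_pos, key 1 (by rw [he]; simp)⟩
    · obtain ⟨w, hw, hmin⟩ := hcomp.exists_isMinOn hne hc.continuousOn
      refine ⟨q w, lt_of_le_of_ne (hq.nonneg _) (fun h => ?_), key _ (fun w' hw' => hmin hw')⟩
      have : w ∈ Z ⊓ U := ⟨h.symm, hw.2⟩
      rw [hU.inf_eq_bot, Submodule.mem_bot] at this
      have h1 := hw.1
      rw [this] at h1
      simp at h1
  obtain ⟨m, m0, hm⟩ := hm
  obtain ⟨a, -, φ, hφ, ht⟩ := (isCompact_closedBall (0:V) ((B / m) ^ (1 / p))).tendsto_subseq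
    (x := u) (fun k => by
      have a1 := hm _ (u1 k)
      have a2 := hq.le_add_sub (u k) (v k)
      rw [hq.sub_rev, u3] at a2
      have a3 : ‖u k‖ ^ p ≤ B / m := by rw [le_div_iff₀ m0]; linarith [hB k]
      have a4 := Real.rpow_le_rpow (by positivity) a3 (by positivity : 0 ≤ 1 / p)
      rw [inv2 hp (norm_nonneg _)] at a4
      simpa using a4)
  have h2 := (hc.tendsto _).comp (ht.sub (ht.comp (tendsto_add_atTop_nat 1)))
  rw [sub_self, hq.zero] at h2
  obtain ⟨k, hk⟩ := (h2.eventually (gt_mem_nhds hη)).exists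
  refine ⟨φ k, φ (k + 1), (hφ (Nat.lt_succ_self k)).ne, lt_of_le_of_lt ?_ hk⟩
  have a1 := hq.tri (v (φ k)) (u (φ k)) (v (φ (k + 1)))
  have a2 := hq.tri (u (φ k)) (u (φ (k + 1))) (v (φ (k + 1)))
  rw [hq.sub_rev (u (φ (k + 1))), u3] at a2
  rw [u3] at a1
  simp only [Function.comp]
  linarith

omit [MetricSpace M] in
lemma far (Hs : SN ℝ p nr) (N : Finset M) {B η : ℝ} (hη : 0 < η) (v : ℕ → M →₀ ℝ)
    (hv : ∀ k z, z ∉ N → v k z = 0) (hB : ∀ k, nr (v k) ≤ B) :
    ∃ k l, k ≠ l ∧ nr (v k - v l) < η := by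
  classical
  have hp := Hs.hp
  let A : (N → ℝ) →ₗ[ℝ] (M →₀ ℝ) := Fintype.linearCombination ℝ (fun z : N => single z.1 1)
  have Ae : ∀ w, A w = ∑ z : N, w z • single z.1 1 := fun w => Fintype.linearCombination_apply _ _ _
  have e : ∀ k, A (fun z => v k z) = v k := by
    intro k
    rw [Ae]
    ext x
    rw [Finsupp.finset_sum_apply]
    by_cases hx : x ∈ N
    · rw [Finset.sum_eq_single ⟨x, hx⟩]
      · simp
      · intro z _ hz
        have : z.1 ≠ x := fun h => hz (Subtype.ext h)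
        simp [single_eq_of_ne' this]
      · simp
    · rw [hv _ x hx]
      refine Finset.sum_eq_zero (fun z _ => ?_)
      have : z.1 ≠ x := fun h => hx (h ▸ z.2)
      simp [single_eq_of_ne' this]
  have hq := Hs.comp A
  have hc : Continuous (fun w => nr (A w)) := by
    refine continuous_iff_continuousAt.mpr (fun w0 => ?_)
    rw [ContinuousAt, tendsto_iff_norm_sub_tendsto_zero]
    refine squeeze_zero (fun _ => norm_nonneg _)
      (g := fun w : N → ℝ => ∑ z : N, |w z - w0 z| ^ p * nr (single z.1 1)) (fun w => ?_) ?_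
    · have a0 : nr (A (w - w0)) ≤ ∑ z : N, |w z - w0 z| ^ p * nr (single z.1 1) := by
        rw [Ae]
        exact (Hs.sum _ _).trans (Finset.sum_le_sum (fun z _ => by
          rw [Hs.smul, Real.norm_eq_abs, Pi.sub_apply]))
      have a1 := hq.le_add_sub w w0
      have a2 := hq.le_add_sub w0 w
      rw [hq.sub_rev] at a2
      rw [Real.norm_eq_abs, abs_le]
      constructor <;> linarith
    · have hc : Continuous (fun w : N → ℝ => ∑ z : N, |w z - w0 z| ^ p * nr (single z.1 1)) := by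
        refine continuous_finset_sum _ (fun z _ => Continuous.mul ?_ continuous_const)
        exact (Real.continuous_rpow_const hp.le).comp (by fun_prop)
      simpa [Real.zero_rpow hp.ne'] using hc.tendsto w0
  obtain ⟨k, l, hkl, h⟩ := far0 hq hc hη (fun k z => v k z) (fun k => by rw [e]; exact hB k)
  exact ⟨k, l, hkl, by rwa [map_sub, e, e] at h⟩

theorem core (o : M) (Hs : SN ℝ p nr) (hp1 : p ≤ 1) (hq : 0 < p') (hq1 : p' < 1)
    (Hi : ∀ x y, nr (single x 1 - single y 1) ≤ dist x y ^ p')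
    (Hm : ∀ (q : (M →₀ ℝ) → ℝ) (C : ℝ), 0 ≤ C → SN ℝ p q → q (single o 1) = 0 →
      (∀ x y, q (single x 1 - single y 1) ≤ C * dist x y ^ p') → ∀ c, q c ≤ C * nr c)
    (net : ∀ ρ > 0, ∃ N : Finset M, o ∈ N ∧ ∀ x, ∃ e ∈ N, dist x e ≤ ρ)
    (v : ℕ → M →₀ ℝ) {B s : ℝ} (hB : ∀ k, nr (v k) ≤ B) (hs : 0 < s)
    (sep : ∀ k l, k ≠ l → s ≤ nr (v k - v l)) :
    ∃ k : ℕ → ℕ, (∀ n, n ≤ k n) ∧ HasLp ℝ p nr (fun n => v (k n)) := by
  classical
  have hp := Hs.hp
  have stage : ∀ (n : ℕ) (ρ : ℝ), 0 < ρ → ∃ (k : ℕ) (r : ℝ) (q : (M →₀ ℝ) → ℝ), n ≤ k ∧ 0 < r ∧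
      SN ℝ p q ∧ q (single o 1) = 0 ∧ (∀ x y, q (single x 1 - single y 1) ≤ DD p' r x y) ∧
      (∀ x y, q (single x 1 - single y 1) ≤ 2 * ρ ^ p') ∧ s / 4 / 2 ^ p' ≤ q (v k) := by
    intro n ρ hρ
    obtain ⟨N, hN, hnet⟩ := net ρ hρ
    obtain ⟨k, hk⟩ : ∃ k, ∀ w : M →₀ ℝ, (∀ z, z ∉ N → w z = 0) → s / 4 ≤ nr (v (k + n) - w) := by
      by_contra hc
      push Not at hc
      choose w w1 w2 using hc
      obtain ⟨k, l, hkl, hlt⟩ := far Hs N (B := B + s / 4) (η := s / 4) (by positivity) w w1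
        (fun k => by
          have a1 := Hs.le_add_sub (w k) (v (k + n))
          rw [Hs.sub_rev] at a1
          have := hB (k + n)
          have := w2 k
          linarith)
      have a2 := Hs.tri (v (k + n)) (w k) (v (l + n))
      have a3 := Hs.tri (w k) (w l) (v (l + n))
      rw [Hs.sub_rev (w l)] at a3
      have := sep (k + n) (l + n) (by omega)
      have := w2 k; have := w2 l
      linarith
    obtain ⟨r, r0, -, q, q0, q1, q2, q3⟩ := exists_q Hs hp1 hq hq1.le Hi N hN _ hρ hk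
    have hx : ∀ x, q (single x 1) ≤ ρ ^ p' := by
      intro x
      obtain ⟨e, he, hd⟩ := hnet x
      have a1 := q0.le_add_sub (single x 1) (single e 1)
      have a2 := (q2 x e).trans (min_le_left _ _)
      have a4 := Real.rpow_le_rpow dist_nonneg hd hq.le
      rw [q1 e he] at a1
      linarith
    exact ⟨k + n, r, q, Nat.le_add_left _ _, r0, q0, q1 o hN, q2, fun x y => by
      have := q0.sub (single x 1) (single y 1)
      have := hx x; have := hx y; linarith, q3⟩
  choose! k r q s0 s1 s2 s3 s4 s5 s6 using stage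
  choose! nx x1 x2 x3 x4 using exists_next hq hq1
  obtain ⟨ρ, ρz, ρs⟩ : ∃ ρ : ℕ → ℝ, ρ 0 = 1 ∧ ∀ n, ρ (n + 1) = nx n (ρ n) (r n (ρ n)) :=
    ⟨fun n => Nat.rec 1 (fun n a => nx n a (r n a)) n, rfl, fun _ => rfl⟩
  have ρ0 : ∀ n, 0 < ρ n := by
    intro n
    induction n with
    | zero => rw [ρz]; exact one_pos
    | succ n ih => rw [ρs]; exact x1 _ _ _ ih (s1 _ _ ih)
  have r0 : ∀ n, 0 < r n (ρ n) := fun n => s1 _ _ (ρ0 n)
  have ρa : Antitone ρ := antitone_nat_of_succ_le (fun n => by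
    have := x2 n _ _ (ρ0 n) (r0 n); have := ρ0 n; rw [ρs]; linarith)
  refine ⟨fun n => k n (ρ n), fun n => s0 n _ (ρ0 n), ?_⟩
  refine ellp (q := fun n => q n (ρ n)) (fun n => s2 n _ (ρ0 n)) (C := 7) (B := B)
    (s := s / 4 / 2 ^ p') (by norm_num) (by positivity) (fun F => ?_) _ (fun n => hB _)
    (fun n => s6 n _ (ρ0 n))
  refine Hm _ _ (by norm_num) (SN.finsum hp F (fun n => s2 n _ (ρ0 n)))
    (Finset.sum_eq_zero (fun n _ => s3 n _ (ρ0 n))) (fun x y => ?_)
  set d := dist x y with hd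
  have d0 : 0 ≤ d := dist_nonneg
  have dp : 0 ≤ d ^ p' := by positivity
  have pt : ∀ n : ℕ, q n (ρ n) (single x 1 - single y 1) ≤
      (if ρ n ≤ d then 2 * ρ n ^ p' else 0) + (1 / 2) ^ n * d ^ p'
      + (if ρ (n + 1) ≤ d ∧ d < ρ n then d ^ p' else 0) := by
    intro n
    have t1 : 0 ≤ (if ρ n ≤ d then 2 * ρ n ^ p' else 0) := by
      have := ρ0 n
      split_ifs <;> positivity
    have t2 : 0 ≤ (1 / 2 : ℝ) ^ n * d ^ p' := by positivity
    have t3 : 0 ≤ (if ρ (n + 1) ≤ d ∧ d < ρ n then d ^ p' else 0) := by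
      split_ifs <;> positivity
    by_cases c1 : ρ n ≤ d
    · have := s5 n _ (ρ0 n) x y
      rw [if_pos c1]; linarith
    by_cases c2 : ρ (n + 1) ≤ d
    · have := (s4 n _ (ρ0 n) x y).trans (min_le_left _ _)
      rw [if_pos (And.intro c2 (not_le.mp c1))]; linarith
    · have a1 := (s4 n _ (ρ0 n) x y).trans (min_le_right _ _)
      have a2 : d = d ^ (1 - p') * d ^ p' := by
        rw [← Real.rpow_add' d0 (by norm_num)]; simp
      have a3 : d ^ (1 - p') ≤ ρ (n + 1) ^ (1 - p') :=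
        Real.rpow_le_rpow d0 (not_le.mp c2).le (by linarith)
      have a4 := x4 n _ _ (ρ0 n) (r0 n)
      rw [← ρs] at a4
      have a5 : 0 ≤ r n (ρ n) ^ (p' - 1) := by have := r0 n; positivity
      have a6 : r n (ρ n) ^ (p' - 1) * d ≤ (1 / 2) ^ n * d ^ p' := by
        calc r n (ρ n) ^ (p' - 1) * d = (r n (ρ n) ^ (p' - 1) * d ^ (1 - p')) * d ^ p' := by
              rw [mul_assoc, ← a2]
          _ ≤ _ := mul_le_mul_of_nonneg_right
              ((mul_le_mul_of_nonneg_left a3 a5).trans a4) dp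
      linarith
  refine (Finset.sum_le_sum (fun n _ => pt n)).trans ?_
  rw [Finset.sum_add_distrib, Finset.sum_add_distrib]
  have S1 : ∑ n ∈ F, (if ρ n ≤ d then 2 * ρ n ^ p' else 0) ≤ 2 * (2 * d ^ p') := by
    rw [← Finset.sum_filter, ← Finset.mul_sum]
    refine mul_le_mul_of_nonneg_left (geo_sum (fun n => ρ n ^ p')
      (fun n => by have := ρ0 n; positivity) (fun n => by rw [ρs]; exact x3 _ _ _ (ρ0 n) (r0 n)) _ _ dp
      (fun n hn => Real.rpow_le_rpow (ρ0 n).le (Finset.mem_filter.mp hn).2 hq.le))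
      (by positivity)
  have S2 : ∑ n ∈ F, (1 / 2 : ℝ) ^ n * d ^ p' ≤ 2 * d ^ p' := by
    rw [← Finset.sum_mul]
    refine mul_le_mul_of_nonneg_right ?_ dp
    exact (summable_geometric_two.sum_le_tsum F (fun _ _ => by positivity)).trans
      tsum_geometric_two.le
  have S3 := sum_le_one dp (fun n => ρ (n + 1) ≤ d ∧ d < ρ n) (fun n m hnm h1 h2 => by
    have : ρ m ≤ ρ (n + 1) := ρa (Nat.succ_le_of_lt hnm)
    linarith [h1.1, h2.2]) F
  linarith

end Pool.Agent.H.MP_86e52e_an
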