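import Pool.Agent.H.MP_86e52e_an.A
set_option autoImplicit false

namespace Pool.Agent.H.MP_86e52e_an
open Set Metric Filter Topology Finsupp MeasureTheory
open Pool.Agent.H.MP_1a7c10_an
open Pool.Agent.H.MP_a71740_an hiding key_lemma exists_q far core

variable {p p' : ℝ}

lemma exists_fr (hp : 0 < p) (hp1 : p ≤ 1) (p' : ℝ) {M : Type} [MetricSpace M] (o : M) :
    ∃ nr : (M →₀ ℝ) → ℝ, SN ℝ p nr ∧ nr (single o 1) = 0 ∧
      (∀ x y, nr (single x 1 - single y 1) ≤ dist x y ^ p') ∧
      ∀ (q : (M →₀ ℝ) → ℝ) (C : ℝ), 0 ≤ C → SN ℝ p q → q (single o 1) = 0 →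
      (∀ x y, q (single x 1 - single y 1) ≤ C * dist x y ^ p') → ∀ c, q c ≤ C * nr c := by
  classical
  obtain ⟨q, q0, q1, q2⟩ := SN_inf (cost_sn hp hp1 (D := fun x y : M => dist x y ^ p')
    (fun x y => by positivity))
    (fun k (c : M →₀ ℝ) => ∃ t : ℝ, c = bd k + t • single o 1) (fun c => by
      induction c using Finsupp.induction_linear with
      | zero => exact ⟨0, 0, by simp⟩
      | add a b ha hb =>
        obtain ⟨k, t, hk⟩ := ha
        obtain ⟨k', t', hk'⟩ := hb
        exact ⟨k + k', t + t', by rw [hk, hk', map_add, add_smul]; abel⟩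
      | single x t => exact ⟨single (x, o) t, t, by rw [bd_single, ev, smul_sub]; simp⟩)
    (by
      rintro k c k' c' ⟨t, rfl⟩ ⟨t', rfl⟩
      exact ⟨t + t', by rw [map_add, add_smul]; abel⟩)
    (by
      rintro s k c ⟨t, rfl⟩
      exact ⟨s * t, by rw [map_smul, smul_add, smul_smul]⟩)
  refine ⟨q, q0, le_antisymm ?_ (q0.nonneg _), fun x y => ?_, fun q' C hC hq' a0 a1 c => ?_⟩
  · simpa [cost] using q1 0 (single o 1) ⟨1, by simp⟩
  · have := q1 (single (x, y) 1) (single x 1 - single y 1) ⟨0, by rw [bd_single, ev]; simp⟩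
    rw [cost_single hp] at this
    simpa using this
  · have key : ∀ k, (∃ t : ℝ, c = bd k + t • single o 1) →
        q' c ≤ C * cost p (fun x y : M => dist x y ^ p') k := by
      rintro k ⟨t, rfl⟩
      refine (hq'.add _ _).trans ?_
      rw [hq'.smul, a0, mul_zero, add_zero, bd_eq, cost, Finset.mul_sum]
      refine (hq'.sum _ _).trans (Finset.sum_le_sum (fun e _ => ?_))
      rw [hq'.smul, Real.norm_eq_abs, mul_left_comm]
      exact mul_le_mul_of_nonneg_left (a1 _ _) (by positivity)
    by_contra hlt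
    rw [not_le] at hlt
    rcases hC.eq_or_lt with rfl | hC'
    · have := q2 c (q c + 1) (fun k hk => by
        have := key k hk
        linarith)
      linarith
    · have := q2 c (q' c / C) (fun k hk => by rw [div_le_iff₀' hC']; exact key k hk)
      rw [div_le_iff₀' hC'] at this
      linarith

lemma exists_compl {M : Type} {q : (M →₀ ℝ) → ℝ} (hq : SN ℝ p q) :
    ∃ (X : Type) (_ : NormedAddCommGroup X) (_ : Module ℝ X) (_ : CompleteSpace X)
      (L : (M →₀ ℝ) →ₗ[ℝ] X), (∀ (t : ℝ) (u : X), ‖t • u‖ = ‖t‖ ^ p * ‖u‖) ∧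
      (∀ v, ‖L v‖ = q v) ∧ DenseRange L := by
  letI : SeminormedAddCommGroup (Sq ℝ M) := AddGroupSeminorm.toSeminormedAddCommGroup
    { toFun := q, map_zero' := hq.zero, add_le' := hq.add, neg' := hq.neg }
  haveI : UniformContinuousConstSMul ℝ (Sq ℝ M) := ⟨fun t =>
    AddMonoidHomClass.uniformContinuous_of_bound (DistribSMul.toAddMonoidHom (Sq ℝ M) t)
      (‖t‖ ^ p) (fun a => (hq.smul t a).le)⟩
  let L : (M →₀ ℝ) →ₗ[ℝ] UniformSpace.Completion (Sq ℝ M) :=
    { toFun := fun a => UniformSpace.Completion.coe' (α := Sq ℝ M) a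
      map_add' := fun a b => UniformSpace.Completion.coe_add (α := Sq ℝ M) a b
      map_smul' := fun t a => UniformSpace.Completion.coe_smul (X := Sq ℝ M) t a }
  refine ⟨UniformSpace.Completion (Sq ℝ M), inferInstance, inferInstance, inferInstance, L,
    fun t y => ?_, fun a => UniformSpace.Completion.norm_coe (E := Sq ℝ M) a,
    UniformSpace.Completion.denseRange_coe (α := Sq ℝ M)⟩
  refine UniformSpace.Completion.induction_on y (isClosed_eq
    (continuous_norm.comp (continuous_const_smul t)) (continuous_const.mul continuous_norm)) ?_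
  intro a
  rw [← UniformSpace.Completion.coe_smul, UniformSpace.Completion.norm_coe,
    UniformSpace.Completion.norm_coe]
  exact hq.smul t a

abbrev I01 : Type := Icc (0:ℝ) 1

lemma exists_Lq {q : ℝ} (hq : 0 < q) (hq1 : q ≤ 1) : ∃ J : (I01 →₀ ℝ) → ℝ, SN ℝ q J ∧
    J (single 0 1) = 0 ∧ J (single 1 1) = 1 ∧
    ∀ x y, J (single x 1 - single y 1) ≤ dist x y := by
  let Fm : (I01 →₀ ℝ) →ₗ[ℝ] (ℝ → ℝ) :=
    linearCombination ℝ (fun x : I01 => (Iic (x:ℝ)).indicator (fun _ => (1:ℝ)))
  have Fs : ∀ x : I01, Fm (single x 1) = (Iic (x:ℝ)).indicator (fun _ => (1:ℝ)) := fun x => by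
    simp [Fm]
  have hm : ∀ c, Measurable (Fm c) ∧ ∃ B, ∀ t, |Fm c t| ≤ B := by
    intro c
    induction c using Finsupp.induction_linear with
    | zero => exact ⟨by rw [map_zero]; exact measurable_const, 0, by simp⟩
    | add a b ha hb =>
      obtain ⟨a1, A, a2⟩ := ha
      obtain ⟨b1, B, b2⟩ := hb
      rw [map_add]
      exact ⟨a1.add b1, A + B, fun t => (abs_add_le _ _).trans (add_le_add (a2 t) (b2 t))⟩
    | single x t =>
      rw [← mul_one t, ← smul_eq_mul, ← smul_single, map_smul, Fs]
      refine ⟨(measurable_const.indicator measurableSet_Iic).const_smul t, |t|, fun s => ?_⟩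
      by_cases h : s ∈ Iic (x:ℝ) <;> simp [h]
  have hi : ∀ c, Integrable (fun t => |Fm c t| ^ q) (volume.restrict (Ioc (0:ℝ) 1)) := by
    intro c
    obtain ⟨h1, B, h2⟩ := hm c
    refine Integrable.of_bound (C := B ^ q)
      ((h1.abs.pow_const q).aestronglyMeasurable) (Eventually.of_forall (fun t => ?_))
    rw [Real.norm_eq_abs, abs_of_nonneg (by positivity)]
    exact Real.rpow_le_rpow (abs_nonneg _) (h2 t) hq.le
  refine ⟨fun c => ∫ t in Ioc (0:ℝ) 1, |Fm c t| ^ q, ⟨hq, fun a b => ?_, fun s a => ?_⟩, ?_, ?_,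
    ?_⟩
  · rw [← integral_add (hi a) (hi b)]
    refine integral_mono (hi _) ((hi a).add (hi b)) (fun t => ?_)
    simp only [map_add, Pi.add_apply]
    exact (Real.rpow_le_rpow (abs_nonneg _) (abs_add_le _ _) hq.le).trans
      (Real.rpow_add_le_add_rpow (abs_nonneg _) (abs_nonneg _) hq.le hq1)
  · rw [← integral_const_mul]
    refine integral_congr_ae (Eventually.of_forall (fun t => ?_))
    simp only [map_smul, Pi.smul_apply, smul_eq_mul, abs_mul, Real.norm_eq_abs]
    rw [Real.mul_rpow (abs_nonneg _) (abs_nonneg _)]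
  · simp only
    rw [setIntegral_congr_fun measurableSet_Ioc (g := fun _ => 0) (fun t ht => by
      have : t ∉ Iic ((0 : I01) : ℝ) := by simpa using ht.1
      simp only [Fs, Set.indicator_of_notMem this, abs_zero, Real.zero_rpow hq.ne'])]
    simp
  · simp only
    rw [setIntegral_congr_fun measurableSet_Ioc (g := fun _ => 1) (fun t ht => by
      have : t ∈ Iic ((1 : I01) : ℝ) := by simpa using ht.2
      simp only [Fs, Set.indicator_of_mem this, abs_one, Real.one_rpow])]
    simp
  · have key : ∀ x y : I01, (x:ℝ) ≤ y →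
        ∫ t in Ioc (0:ℝ) 1, |Fm (single x 1 - single y 1) t| ^ q ≤ dist x y := by
      intro x y hxy
      have e : (fun t => |Fm (single x 1 - single y 1) t| ^ q)
          = (Ioc (x:ℝ) y).indicator (fun _ => (1:ℝ)) := by
        ext t
        simp only [map_sub, Fs, Pi.sub_apply, Set.indicator, mem_Iic, mem_Ioc]
        by_cases h1 : t ≤ x
        · simp [h1, h1.trans hxy, Real.zero_rpow hq.ne']
        · by_cases h2 : t ≤ y
          · simp [h1, h2, not_le.mp h1]
          · simp [h1, h2, Real.zero_rpow hq.ne']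
      rw [e, integral_indicator measurableSet_Ioc, setIntegral_const, smul_eq_mul, mul_one]
      rw [measureReal_restrict_apply measurableSet_Ioc]
      refine (measureReal_mono inter_subset_left (by simp)).trans ?_
      rw [Real.volume_real_Ioc_of_le hxy, Subtype.dist_eq, Real.dist_eq, abs_sub_comm]
      exact le_abs_self _
    intro x y
    rcases le_total (x:ℝ) y with h | h
    · exact key x y h
    · have := key y x h
      rw [dist_comm]
      refine le_of_eq_of_le ?_ this
      refine integral_congr_ae (Eventually.of_forall (fun t => ?_))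
      simp only [map_sub, Pi.sub_apply]
      rw [abs_sub_comm]

lemma flat_const (g : ℝ → ℝ) {C a : ℝ} (ha : 1 < a) (h : ∀ s t, |g s - g t| ≤ C * |s - t| ^ a)
    (s t : ℝ) : g s = g t := by
  refine is_const_of_deriv_eq_zero (fun x => ?_) (fun x => ?_) s t
  all_goals
    have : HasDerivAt g 0 x := by
      rw [hasDerivAt_iff_isLittleO, Asymptotics.isLittleO_iff]
      intro c hc
      have c1 : Tendsto (fun y : ℝ => C * |y - x| ^ (a - 1)) (𝓝 x) (𝓝 0) := by
        have h1 : Continuous (fun y : ℝ => C * |y - x| ^ (a - 1)) :=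
          continuous_const.mul ((Real.continuous_rpow_const (by linarith)).comp (by fun_prop))
        have := h1.tendsto x
        rwa [sub_self, abs_zero, Real.zero_rpow (by linarith), mul_zero] at this
      filter_upwards [c1.eventually (ge_mem_nhds hc)] with y hy
      simp only [smul_zero, sub_zero, Real.norm_eq_abs]
      refine (h y x).trans ?_
      have e : |y - x| ^ a = |y - x| ^ (a - 1) * |y - x| := by
        rw [← Real.rpow_add_one' (abs_nonneg _) (by linarith)]; ring_nf
      rw [e, ← mul_assoc]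
      exact mul_le_mul_of_nonneg_right hy (abs_nonneg _)
  · exact this.differentiableAt
  · exact this.deriv

theorem main (hp : 0 < p) (hp1 : p < 1) :
    ∃ (X : Type) (_ : AddCommGroup X) (_ : Module ℝ X) (N : X → ℝ),
      IsPBanach ℝ p X N ∧ (∃ x : X, x ≠ 0) ∧ SchurP ℝ p N ∧
      ∀ φ : X →ₗ[ℝ] ℝ, (∃ C, ∀ x, |φ x| ≤ C * N x) → φ = 0 := by
  classical
  set q : ℝ := (1 + p) / 2 with hq
  have q0 : 0 < q := by positivity
  have q1 : q < 1 := by linarith
  have pq : p < q := by linarith
  have r0 : 0 < p / q := by positivity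
  have r1 : p / q < 1 := by rwa [div_lt_one q0]
  obtain ⟨nr, Hs, H0, Hi, Hm⟩ := exists_fr hp hp1.le (p / q) (0 : I01)
  obtain ⟨X, _, _, _, L, hom, hL, hd⟩ := exists_compl Hs
  have hB := isPBanach_of_normed (𝕜 := ℝ) hp X hom
  refine ⟨X, inferInstance, inferInstance, fun y => ‖y‖ ^ (1 / p), hB, ⟨L (single 1 1), ?_⟩,
    ?_, ?_⟩
  · obtain ⟨J, J0, J1, J2, J3⟩ := exists_Lq q0 q1.le
    have := Hm (fun c => J c ^ (p / q)) 1 zero_le_one ⟨hp, fun a b =>
      (Real.rpow_le_rpow (J0.nonneg _) (J0.add a b) r0.le).trans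
        (Real.rpow_add_le_add_rpow (J0.nonneg _) (J0.nonneg _) r0.le r1.le), fun t a => by
      rw [J0.smul, Real.mul_rpow (by positivity) (J0.nonneg _), ← Real.rpow_mul (norm_nonneg _),
        mul_div_cancel₀ _ q0.ne']⟩ (by rw [J1, Real.zero_rpow r0.ne']) (fun x y => by
      rw [one_mul]; exact Real.rpow_le_rpow (J0.nonneg _) (J3 x y) r0.le) (single 1 1)
    intro h
    rw [J2, ← hL, h] at this
    norm_num at this
  · rintro A hA ⟨B, hAB⟩ ⟨s, hs, sep⟩
    let w := hA.natEmbedding
    have B1 : ∀ x ∈ A, ‖x‖ ≤ B ^ p := fun x hx => by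
      have := Real.rpow_le_rpow (by positivity) (hAB x hx) hp.le
      rwa [inv1 hp (norm_nonneg _)] at this
    choose v hv using fun k : ℕ => hd.exists_dist_lt (w k : X)
      (show 0 < min (1 / ((k:ℝ) + 1)) (s ^ p / 4) by positivity)
    simp only [dist_eq_norm] at hv
    obtain ⟨k, k1, k2⟩ := core (0 : I01) Hs hp1.le r0 r1 Hi Hm (fun ρ hρ => by
        obtain ⟨t, -, t1, t2⟩ := finite_cover_balls_of_compact (isCompact_univ (X := I01)) hρ
        refine ⟨insert 0 t1.toFinset, Finset.mem_insert_self _ _, fun x => ?_⟩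
        obtain ⟨e, he, hx⟩ := mem_iUnion₂.mp (t2 (mem_univ x))
        exact ⟨e, by simp [he], (mem_ball.mp hx).le⟩) v (B := B ^ p + s ^ p / 4) (s := s ^ p / 2)
      (fun k => by
        have a1 := B1 _ (w k).2
        have a2 := (hv k).le.trans (min_le_right _ _)
        have a3 := norm_sub_le (w k : X) (w k - L (v k))
        rw [sub_sub_cancel, hL] at a3
        linarith) (by positivity) (fun k l hkl => by
        have a1 := Real.rpow_le_rpow hs.le
          (sep _ (w k).2 _ (w l).2 (fun h => hkl (w.injective (Subtype.ext h)))) hp.le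
        rw [inv1 hp (norm_nonneg _)] at a1
        have a2 := (hv k).le.trans (min_le_right _ _)
        have a3 := (hv l).le.trans (min_le_right _ _)
        have e : (w k : X) - w l = (w k - L (v k)) + L (v k - v l) - (w l - L (v l)) := by
          rw [map_sub]; abel
        rw [e] at a1
        have a4 := norm_sub_le ((w k - L (v k)) + L (v k - v l)) (w l - L (v l))
        have a5 := norm_add_le (w k - L (v k)) (L (v k - v l))
        rw [hL] at a5
        linarith)
    obtain ⟨x, hx, κ, hκ, hl⟩ := perturb hom L A (fun n => v (k n)) (fun n =>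
      ⟨w (k n), (w (k n)).2, ((hv _).le.trans (min_le_left _ _)).trans
        (Nat.one_div_le_one_div (k1 n))⟩) (by simpa only [hL] using k2)
    exact ⟨x, hx, hB.equivLp hp x B κ hκ (fun n => hAB _ (hx n)) (fun F a => by
      rw [inv1 hp (norm_nonneg _)]; exact hl F a)⟩
  · rintro φ ⟨C, hC⟩
    have hC' : ∀ x, |φ x| ≤ |C| * ‖x‖ ^ (1 / p) := fun x =>
      (hC x).trans (mul_le_mul_of_nonneg_right (le_abs_self C) (by positivity))
    have h1 : ∀ x : I01, φ (L (single x 1)) = 0 := by
      intro x
      have := flat_const (fun t => φ (L (single (projIcc 0 1 zero_le_one t) 1))) (C := |C|)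
        (a := 1 / q) (by rw [lt_div_iff₀ q0]; linarith) (fun s t => by
          rw [← map_sub, ← map_sub]
          refine (hC' _).trans (mul_le_mul_of_nonneg_left ?_ (abs_nonneg _))
          have a1 := Hi (projIcc 0 1 zero_le_one s) (projIcc 0 1 zero_le_one t)
          have a2 : dist (projIcc 0 1 zero_le_one s) (projIcc (0:ℝ) 1 zero_le_one t) ≤ |s - t| :=
            abs_projIcc_sub_projIcc zero_le_one
          have a3 := Real.rpow_le_rpow (Hs.nonneg _)
            (a1.trans (Real.rpow_le_rpow dist_nonneg a2 r0.le)) (by positivity : 0 ≤ 1 / p)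
          rw [← Real.rpow_mul (abs_nonneg _), show p / q * (1 / p) = 1 / q by field_simp] at a3
          rwa [hL]) x 0
      simp only [projIcc_val, projIcc_left] at this
      rw [this]
      have e : L (single (0 : I01) 1) = 0 := by rw [← norm_eq_zero, hL, H0]
      exact (congrArg φ e).trans (map_zero φ)
    have h2 : ∀ v, φ (L v) = 0 := by
      intro v
      induction v using Finsupp.induction_linear with
      | zero => simp
      | add a b ha hb => rw [map_add, map_add, ha, hb, add_zero]
      | single x t => rw [← mul_one t, ← smul_eq_mul, ← smul_single, map_smul, map_smul, h1,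
          smul_zero]
    have hc : Continuous φ := by
      refine continuous_of_continuousAt_zero φ ?_
      rw [ContinuousAt, map_zero, tendsto_zero_iff_abs_tendsto_zero]
      refine squeeze_zero (fun _ => abs_nonneg _) hC' ?_
      have h1 : Continuous (fun y : X => |C| * ‖y‖ ^ (1 / p)) :=
        continuous_const.mul ((Real.continuous_rpow_const (by positivity)).comp continuous_norm)
      have := h1.tendsto 0
      rwa [norm_zero, Real.zero_rpow (by positivity), mul_zero] at this
    ext x
    exact hd.induction_on x (isClosed_eq hc continuous_const) h2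

end Pool.Agent.H.MP_86e52e_an
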